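import Mathlib
import Pool.Agent.R590.SgMain

set_option autoImplicit false

/-!
# MP_fe7b28_co: it is consistent that `ℵ₁` does not work for `ℵ₁`

A forcing notion with the countable chain condition, of cardinality at most `ℵ₁`, adds a group
`G` of cardinality `ℵ₁` such that no ground model graph on `ω₁` without uncountable cliques and
uncountable independent sets is an induced subgraph of a Cayley graph of `G`.  Such graphs exist
(Sierpinski).  The definitions are in `Pool/Agent/R590/SgDefs.lean`.
-/

namespace Pool.Agent.Results.MP_fe7b28_co.ConsistentFailure

open Pool.Agent.R590.Sg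

/-- 1. There is a graph on `ω₁` with no uncountable clique and no uncountable independent set.
2. Some forcing notion satisfies the countable chain condition, has at most `ℵ₁` conditions,
preserves `ω₁`, and adds a group `G` with `ω₁` distinct generators such that no ground model graph
on `ω₁` with no uncountable clique and no uncountable independent set embeds as an induced subgraph
in a Cayley graph of `G`. -/
theorem result : (∃ X : SimpleGraph Om, NoLargeHomogeneous X) ∧
    ∃ (P : Type) (_ : Preorder P), Nonempty P ∧ CCC P ∧ Cardinal.mk P ≤ Cardinal.aleph 1 ∧
      ∀ p : P, p ∈ OmegaOnePreserved P ∧ p ∈ BadGroupHolds P := by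
  obtain ⟨r₀, hr₀⟩ := exists_inj
  exact ⟨⟨sierpinski r₀, sierpinski_noLarge r₀ hr₀⟩, Cond, inferInstance, inferInstance, ccc_Cond,
    mk_Cond, fun p => ⟨omegaOnePreserved_of_ccc ccc_Cond p, badGroup p⟩⟩

end Pool.Agent.Results.MP_fe7b28_co.ConsistentFailure
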